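import Pool.Agent.H.MP_6859a2_co.Defs

set_option autoImplicit false

namespace Pool.Agent.Results.MP_6859a2_co.Exact

open Pool.Agent.H.MP_6859a2_co SimpleGraph Finset Classical

section
variable {V : Type} [Fintype V] {G : SimpleGraph V}

omit [Fintype V] in
theorem cyc {x y z : V} (p : G.Walk y z) (hp : p.IsPath) (hx : x ∉ p.support) (hyz : y ≠ z)
    (h1 : G.Adj x y) (h2 : G.Adj x z) :
    ∃ C : G.Walk x x, C.IsCycle ∧ ∀ w ∈ C.support, w = x ∨ w ∈ p.support := by
  refine ⟨Walk.cons h1 (p.concat h2.symm), ?_, ?_⟩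
  · rw [Walk.cons_isCycle_iff]
    refine ⟨hp.concat hx _, fun h => ?_⟩
    rw [Walk.edges_concat, List.concat_eq_append, List.mem_append] at h
    rcases h with h | h
    · exact hx (Walk.fst_mem_support_of_mem_edges _ h)
    · rw [List.mem_singleton, Sym2.eq_iff] at h
      rcases h with h | h
      · exact h2.ne h.1
      · exact hyz h.2
  · intro w hw
    rw [Walk.support_cons, Walk.support_concat, List.mem_cons] at hw
    simp only [List.concat_eq_append, List.mem_append, List.mem_singleton] at hw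
    tauto

theorem deg {c : ℕ} (hc : Conn G c) (S : Finset V) (x : V) (hx : x ∉ S) :
    c ≤ S.card + (univ.filter (fun y => G.Adj x y ∧ y ∉ S)).card := by
  by_contra! hlt
  set N := univ.filter (fun y => G.Adj x y ∧ y ∉ S) with hN
  have h1 : (S ∪ N).card < c := lt_of_le_of_lt (card_union_le _ _) hlt
  have hxN : x ∉ S ∪ N := by simp [hN, hx]
  have h2 : (insert x (S ∪ N)).card < (univ : Finset V).card := by
    rw [card_insert_of_notMem hxN, card_univ]
    have := hc.1
    omega
  obtain ⟨y, -, hy⟩ := exists_mem_notMem_of_card_lt_card h2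
  rw [mem_insert, not_or] at hy
  obtain ⟨p⟩ := (hc.2 _ h1).preconnected ⟨x, by simpa using hxN⟩ ⟨y, by simpa using hy.2⟩
  have hn : ¬ p.Nil := Walk.not_nil_of_ne (fun e => hy.1 (congrArg Subtype.val e).symm)
  have ha : G.Adj x p.snd.1 := Walk.adj_snd hn
  have hb : p.snd.1 ∉ S ∪ N := fun h => p.snd.2 (mem_coe.2 h)
  apply hb
  by_cases hs : p.snd.1 ∈ S
  · exact mem_union_left _ hs
  · exact mem_union_right _ (mem_filter.2 ⟨mem_univ _, ha, hs⟩)

theorem base {c : ℕ} (hc : Conn G c) (U : Finset V) (hU : U.card + 2 ≤ c) (x : V) (hx : x ∉ U) :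
    ∃ C : G.Walk x x, C.IsCycle ∧ ∀ w ∈ C.support, w ∉ U := by
  have h := deg hc U x hx
  obtain ⟨y, hy, z, hz, hyz⟩ := one_lt_card.1
    (show 1 < (univ.filter (fun y => G.Adj x y ∧ y ∉ U)).card by omega)
  obtain ⟨-, hy1, hy2⟩ := mem_filter.1 hy
  obtain ⟨-, hz1, hz2⟩ := mem_filter.1 hz
  have h1 : (insert x U).card < c := by rw [card_insert_of_notMem hx]; omega
  obtain ⟨p⟩ := (hc.2 _ h1).preconnected ⟨y, by simp [hy2, hy1.ne']⟩ ⟨z, by simp [hz2, hz1.ne']⟩
  let q : G.Walk y z := p.map (Embedding.induce _).toHom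
  have hq : ∀ w ∈ q.bypass.support, w ∉ insert x U := by
    intro w hw
    have := Walk.support_bypass_subset_support _ hw
    have e : q.support = p.support.map Subtype.val := Walk.support_map _ _
    rw [e, List.mem_map] at this
    obtain ⟨a, -, rfl⟩ := this
    exact fun h => a.2 (mem_coe.2 h)
  obtain ⟨C, hC, hs⟩ := cyc q.bypass (Walk.bypass_isPath _)
    (fun h => hq x h (mem_insert_self _ _)) hyz hy1 hz1
  refine ⟨C, hC, fun w hw hwU => ?_⟩
  rcases hs w hw with rfl | h
  · exact hx hwU
  · exact hq w h (mem_insert_of_mem hwU)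

theorem tri {c : ℕ} (hcl : ClawFree G) (hc : Conn G c) (S : Finset V) (hS : S.card + 3 ≤ c)
    (x : V) (hx : x ∉ S) : ∃ a b, a ∉ S ∧ b ∉ S ∧ ∃ C : G.Walk x x, C.IsCycle ∧
      ∀ w ∈ C.support, w = x ∨ w = a ∨ w = b := by
  have h := deg hc S x hx
  obtain ⟨a, b, d, ha, hb, hd, hab, had, hbd⟩ := two_lt_card_iff.1
    (show 2 < (univ.filter (fun y => G.Adj x y ∧ y ∉ S)).card by omega)
  have key : ∀ a b, a ∈ univ.filter (fun y => G.Adj x y ∧ y ∉ S) →
      b ∈ univ.filter (fun y => G.Adj x y ∧ y ∉ S) → G.Adj a b →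
      ∃ a b, a ∉ S ∧ b ∉ S ∧ ∃ C : G.Walk x x, C.IsCycle ∧
        ∀ w ∈ C.support, w = x ∨ w = a ∨ w = b := by
    intro a b ha hb hab
    obtain ⟨-, ha1, ha2⟩ := mem_filter.1 ha
    obtain ⟨-, hb1, hb2⟩ := mem_filter.1 hb
    obtain ⟨C, hC, hs⟩ := cyc (Walk.cons hab Walk.nil) (by simp [hab.ne])
      (by simp [ha1.ne, hb1.ne]) hab.ne ha1 hb1
    exact ⟨a, b, ha2, hb2, C, hC, fun w hw => by simpa using hs w hw⟩
  rcases hcl x a b d (mem_filter.1 ha).2.1 (mem_filter.1 hb).2.1 (mem_filter.1 hd).2.1
    hab had hbd with h | h | h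
  · exact key _ _ ha hb h
  · exact key _ _ ha hd h
  · exact key _ _ hb hd h

theorem gen {c : ℕ} (hcl : ClawFree G) (hc : Conn G c) (k : ℕ) :
    ∀ (U : Finset V) (v : Fin (k + 1) → V), U.card + 3 * k + 2 ≤ c → Function.Injective v →
      (∀ i, v i ∉ U) → ∃ C : ∀ i, G.Walk (v i) (v i), (∀ i, (C i).IsCycle) ∧
        (∀ i, ∀ w ∈ (C i).support, w ∉ U) ∧
        ∀ i j, i ≠ j → ∀ x, x ∈ (C i).support → x ∉ (C j).support := by
  induction k with
  | zero =>
    intro U v hU _ hv
    choose C hC hs using fun i => base hc U (by omega) (v i) (hv i)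
    exact ⟨C, hC, hs, fun i j hij => absurd (Subsingleton.elim (α := Fin 1) i j) hij⟩
  | succ k ih =>
    intro U v hU hinj hv
    let S := U ∪ univ.image (fun i : Fin (k + 1) => v i.succ)
    have hS : S.card ≤ U.card + (k + 1) :=
      (card_union_le _ _).trans (Nat.add_le_add_left (card_image_le.trans (by simp)) _)
    have h0 : v 0 ∉ S := by
      simp only [S, mem_union, mem_image, mem_univ, true_and, not_or, not_exists]
      exact ⟨hv 0, fun i e => Fin.succ_ne_zero i (hinj e)⟩
    obtain ⟨a, b, ha, hb, C0, hC0, hs0⟩ := tri hcl hc S (by omega) (v 0) h0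
    let U' := insert (v 0) (insert a (insert b U))
    have hU' : U'.card ≤ U.card + 3 :=
      (card_insert_le _ _).trans (Nat.succ_le_succ ((card_insert_le _ _).trans
        (Nat.succ_le_succ (card_insert_le _ _))))
    have hm : ∀ i : Fin (k + 1), v i.succ ∈ S := fun i =>
      mem_union_right _ (mem_image.2 ⟨i, mem_univ _, rfl⟩)
    obtain ⟨C, hC, hs, hd⟩ := ih U' (fun i => v i.succ) (by omega)
      (fun i j e => Fin.succ_injective _ (hinj e)) (fun i h => by
        simp only [U', mem_insert] at h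
        rcases h with h | h | h | h
        · exact h0 (h ▸ hm i)
        · exact ha (h ▸ hm i)
        · exact hb (h ▸ hm i)
        · exact hv _ h)
    have hsU : ∀ w ∈ C0.support, w ∈ U' := fun w hw => by
      simp only [U', mem_insert]
      rcases hs0 w hw with h | h | h <;> simp [h]
    refine ⟨Fin.cases C0 C, fun i => ?_, fun i => ?_, fun i j => ?_⟩
    · induction i using Fin.cases with
      | zero => exact hC0
      | succ i => exact hC i
    · induction i using Fin.cases with
      | zero =>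
        intro w hw hwU
        rcases hs0 w hw with rfl | rfl | rfl
        · exact hv _ hwU
        · exact ha (mem_union_left _ hwU)
        · exact hb (mem_union_left _ hwU)
      | succ i =>
        intro w hw hwU
        exact hs i w hw (by simp [U', hwU])
    · induction i using Fin.cases with
      | zero =>
        induction j using Fin.cases with
        | zero => exact fun h => absurd rfl h
        | succ j => exact fun _ x hx hx' => hs j x hx' (hsU x hx)
      | succ i =>
        induction j using Fin.cases with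
        | zero => exact fun _ x hx hx' => hs i x hx (hsU x hx')
        | succ j => exact fun h => hd i j (fun e => h (by rw [e]))

theorem sep_card {k : ℕ} {v : Fin k → V} (h : Separated G v) : 3 * k ≤ Fintype.card V := by
  obtain ⟨b, C, hC, -, hd⟩ := h
  have h3 : ∀ i, 3 ≤ (C i).support.tail.toFinset.card := fun i => by
    rw [List.toFinset_card_of_nodup (hC i).support_nodup, List.length_tail, Walk.length_support]
    exact (hC i).three_le_length
  have hb := card_biUnion (s := (univ : Finset (Fin k)))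
    (t := fun i => (C i).support.tail.toFinset) (fun i _ j _ hij => disjoint_left.2
      fun x hx hx' => hd i j hij x (List.mem_of_mem_tail (List.mem_toFinset.1 hx))
        (List.mem_of_mem_tail (List.mem_toFinset.1 hx')))
  have h1 := card_le_univ (univ.biUnion (fun i => (C i).support.tail.toFinset))
  have h2 : ∑ _i : Fin k, 3 ≤ ∑ i, (C i).support.tail.toFinset.card := sum_le_sum fun i _ => h3 i
  rw [hb] at h1
  simp only [sum_const, card_univ, Fintype.card_fin, smul_eq_mul] at h2
  omega

end

/-- `f(k) = 3k - 1` for every `k ≥ 1`. -/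
theorem result (k : ℕ) (hk : 1 ≤ k) : IsLeast {c : ℕ | Suffices k c} (3 * k - 1) := by
  obtain ⟨k, rfl⟩ : ∃ k', k = k' + 1 := ⟨k - 1, by omega⟩
  refine ⟨fun V _ G hcl hc v hv => ?_, fun c hc => ?_⟩
  · obtain ⟨C, hC, -, hd⟩ := gen hcl hc k ∅ v (by simp; omega) hv (by simp)
    exact ⟨v, C, hC, fun i => Walk.start_mem_support _, hd⟩
  · by_contra! hlt
    have := sep_card (hc (Fin (3 * k + 2)) ⊤ (fun _ _ _ _ _ _ _ h _ _ => Or.inl h)
      ⟨by simp; omega, fun S hS => ?_⟩ (fun i => ⟨i.val, by omega⟩)
      (fun i j e => Fin.ext (by simpa using e)))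
    · simp at this; omega
    · have h2 : S.card < (univ : Finset (Fin (3 * k + 2))).card := by simp; omega
      obtain ⟨y, -, hy⟩ := exists_mem_notMem_of_card_lt_card h2
      rw [connected_iff]
      refine ⟨fun a b => ?_, ⟨⟨y, by simpa using hy⟩⟩⟩
      by_cases hab : a = b
      · rw [hab]
      · exact Adj.reachable (fun e => hab (Subtype.ext e))

end Pool.Agent.Results.MP_6859a2_co.Exact
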